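import Pool.Agent.H33.PD
import Pool.Agent.H33.VE

/-!
Curves on surfaces (and higher-dimensional varieties) with a finite morphism, or a generically finite
rational map, to a surface of general type with a Hermitian metric of nonpositive holomorphic sectional
curvature: the degree is bounded by a linear function of the genus.
-/

set_option autoImplicit false

open LinearAlgebra.Projectivization MvPolynomial Topology MeasureTheory
open scoped UpperHalfPlane MatrixGroups
open Pool.Agent.W602.GT Pool.Agent.N155.BB Pool.Agent.H33

/-- Let `X = {F = 0}` be a projective manifold of dimension `d` whose 2-forms are positive: there are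
finitely many sections of `Sym ^ ν (Λ² Ω) ⊗ O (-1)`, for some `ν > 0`, whose values at `(v ∧ w) ^ ν`
are not all zero for linearly independent tangent vectors `v`, `w`. If `d = 2`, this holds if the
canonical bundle is ample. Let `Φ` be a metric on `X` whose holomorphic sectional curvature is
nonpositive; here `Φ` is a Hermitian metric with twice continuously differentiable coefficients, or more
generally a uniformly convex complex Finsler metric. (A surface of general type with such a metric does
not contain rational curves, so its canonical bundle is ample, and the theorem applies.)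

Then there is a finite set `S` of nonconstant doubly periodic holomorphic maps `h` from the complex
plane to `X` with `|h'| = 1`, and a number `α`, with the following properties. Let `Z` be the union of
the (elliptic) curves `h (ℂ)`.

* Let `V = {G = 0}` be any projective algebraic set (for example a smooth surface) with a morphism `P` to
  `X` which is given by forms `P j` of degree `e ≥ 1` without common zeros on `V`; such a morphism is
  finite. For every holomorphic map `g` from the complex plane to `V`, the map `P ∘ g` is constant or has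
  its image in `Z`. In particular this is so for the holomorphic maps from compact Riemann surfaces of
  genus `0` or `1`.
* Let `Γ` be a countable group of Möbius transformations of the upper half plane `ℍ` with a bounded
  fundamental domain `D`, so that `ℍ / Γ` is a compact Riemann surface of genus `g ≥ 2`, where
  `volume D = 4 π (g - 1)` (if `Γ` acts freely and properly). Then the degree of every holomorphic map
  `g` from `ℍ / Γ` to `V` such that the image of `P ∘ g` is not contained in `Z` is at most
  `(α / e) * volume D`.
* If `d ≥ 2` then `Z` is contained in a proper algebraic subset `X ∩ {E = 0}` of `X`.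
* Let `V = {G = 0}` be an irreducible projective algebraic set with a generically finite rational map `P`
  to `X`, whose image has dimension at least two. There are a form `T` which is not identically zero on
  `V`, and vanishes on all nonconstant holomorphic maps from the plane to `V`, and a number `β`, such
  that the degree of every holomorphic map from `ℍ / Γ` as above to `V` whose image is not contained in
  `{T = 0}` is at most `β * volume D`.

So if `V` is a smooth surface, with a finite morphism or a generically finite rational map to a surface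
`X` (or with a generically finite rational map to `X` of higher dimension), then there are numbers `A`,
`B` with `K_V C ≤ A (g - 1) + B` for all curves `C` on `V`, of geometric genus `g`. -/
theorem Pool.Agent.Results.MP_79ab39_ag.CoversOfNonpositiveCurvature.result {n d ν : ℕ} {ι κ : Type}
    [Finite κ] (F : ι → MvPolynomial (Fin (n + 1)) ℂ) (hX : ProjManifold F d)
    (η : κ → (Fin (n + 1) → ℂ) → (Fin (n + 1) → ℂ) → (Fin (n + 1) → ℂ) → ℂ)
    (hη : PositiveTwoForms (Cone F) ∅ d η) (hν : ν ≠ 0) (hh : HomForms (Cone F) ν η)
    (Φ : (Fin (n + 1) → ℂ) → (Fin (n + 1) → ℂ) → ℝ) (hΦ : NonposMetric (Cone F) d Φ)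
    (hnd : Nondegenerate (Cone F) d Φ)
    (hr : HermitianMetric (Cone F) d Φ ∨ UniformlyConvex (Cone F) d Φ) :
    ∃ S : Finset (ℂ → ℙ ℂ (Fin (n + 1) → ℂ)),
      (∀ h ∈ S, HolIn F h ∧ DoublyPeriodic h ∧ HasSpeed Φ 1 h ∧ ∃ z w, h z ≠ h w) ∧
      (∃ α : ℝ, ∀ (m : ℕ) (ι' : Type) (G : ι' → MvPolynomial (Fin (m + 1)) ℂ)
        (P : Fin (n + 1) → MvPolynomial (Fin (m + 1)) ℂ) (e : ℕ), 1 ≤ e →
        (∀ j, (P j).IsHomogeneous e) → (∀ y ∈ Cone G, ratVal P y ∈ Cone F) →
        (∀ g, HolIn G g → (∃ x₀, ∀ z, ∃ c : ℂ, ratVal P (g z).rep = c • x₀) ∨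
          ∀ z, ∃ h ∈ S, ∃ (w : ℂ) (c : ℂ), ratVal P (g z).rep = c • (h w).rep) ∧
        ∀ (Γ : Subgroup SL(2, ℝ)) (D : Set ℍ), CompactDomain Γ D →
          ∀ g : ℍ → ℙ ℂ (Fin (m + 1) → ℂ), HolH (Cone G) g →
          (∀ γ ∈ Γ, ∀ z, g (γ • z) = g z) →
          (∃ z, ∀ h ∈ S, ∀ (w : ℂ) (c : ℂ), ratVal P (g z).rep ≠ c • (h w).rep) →
          e * degree g D ≤ ENNReal.ofReal α * volume D) ∧
      (2 ≤ d → ∀ x ∈ Cone F, ∃ E : MvPolynomial (Fin (n + 1)) ℂ, IsForm E ∧
        (¬ ∀ᶠ y in 𝓝[Cone F] x, eval y E = 0) ∧ ∀ h ∈ S, ∀ z, eval (h z).rep E = 0) ∧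
      ∀ (m : ℕ) (ι' : Type) (G : ι' → MvPolynomial (Fin (m + 1)) ℂ)
        (P : Fin (n + 1) → MvPolynomial (Fin (m + 1)) ℂ), RationalMap G F P →
        IrreducibleSet G → TwoDimensional G P → GenericallyFiniteOn G P →
        ∃ (T : MvPolynomial (Fin (m + 1)) ℂ) (β : ℝ), IsForm T ∧ (∃ y ∈ Cone G, eval y T ≠ 0) ∧
          (∀ g, HolIn G g → (∃ z w, g z ≠ g w) → ∀ z, eval (g z).rep T = 0) ∧
          ∀ (Γ : Subgroup SL(2, ℝ)) (D : Set ℍ), CompactDomain Γ D →
            ∀ g : ℍ → ℙ ℂ (Fin (m + 1) → ℂ), HolH (Cone G) g →
            (∀ γ ∈ Γ, ∀ z, g (γ • z) = g z) → (∃ z, eval (g z).rep T ≠ 0) →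
            degree g D ≤ ENNReal.ofReal β * volume D := by
  obtain ⟨S, h1, h2, h3⟩ := covers_bound hX hη hν hh hΦ hnd hr
  exact ⟨S, h1, h2, h3, fun m ι' G P hP hirr hdim hgf =>
    gf_bound hX hη hν hh hΦ hnd hr hP hirr hdim hgf⟩
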